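import Pool.Agent.W873.RT.Stm
import Pool.Agent.W336.RS.DET1

set_option autoImplicit false

open MeasureTheory ProbabilityTheory Polynomial Filter Topology
open scoped ENNReal NNReal

namespace Pool.Agent.W271.RT.LAY

open Pool.Agent.W873.RS (sc chg npos)
open Pool.Agent.W873.RT

noncomputable def Q (f g : ℝ[X]) (l : ℝ) : ℝ[X] := C (1 - l) * f ^ 2 - C l * g ^ 2

lemma Q_eval (f g : ℝ[X]) (l x : ℝ) :
    (Q f g l).eval x = (1 - l) * (f.eval x) ^ 2 - l * (g.eval x) ^ 2 := by
  simp only [Q, eval_sub, eval_mul, eval_C, eval_pow]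

lemma npos_mul_le (p q : ℝ[X]) (hp : p ≠ 0) (hq : q ≠ 0) :
    npos (p * q) ≤ npos p + npos q := by
  classical
  unfold npos
  rw [roots_mul (mul_ne_zero hp hq), Multiset.toFinset_add, Finset.filter_union]
  exact Finset.card_union_le _ _

lemma npos_lt (p : ℝ[X]) (hp : p ≠ 0) : npos p < p.support.card := by
  classical
  unfold npos
  apply Pool.Agent.W336.RS.DET1.card_lt_support hp
  intro x hx
  rw [Finset.mem_filter, Multiset.mem_toFinset, mem_roots hp] at hx
  exact ⟨hx.2, hx.1⟩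

lemma supp_le (f g : ℝ[X]) (a b : ℝ) :
    (C a * f + C b * g).support.card ≤ f.support.card + g.support.card := by
  classical
  have h1 : (C a * f + C b * g).support ⊆ f.support ∪ g.support := by
    intro n hn
    rw [mem_support_iff] at hn
    rw [Finset.mem_union, mem_support_iff, mem_support_iff]
    by_contra h
    push Not at h
    apply hn
    simp [h.1, h.2]
  exact (Finset.card_le_card h1).trans (Finset.card_union_le _ _)

lemma vol_Q (h : VNP) (f g : ℝ[X]) (ε l : ℝ) (hε : 0 < ε) (hl : l ∈ Set.Ioo (0:ℝ) 1) :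
    volume (chg (fun x => (Q f g l).eval x) ε) ≤
      ENNReal.ofReal ε * (2 * ((f.support.card + g.support.card : ℕ) : ℝ≥0∞)) := by
  have hfac : Q f g l = (C (√(1-l)) * f + C (-√l) * g) * (C (√(1-l)) * f + C (√l) * g) := by
    have h1 : (C (1 - l) : ℝ[X]) = C (√(1-l)) * C (√(1-l)) := by
      rw [← C_mul, Real.mul_self_sqrt (by linarith [hl.2])]
    have h2 : (C l : ℝ[X]) = C (√l) * C (√l) := by
      rw [← C_mul, Real.mul_self_sqrt (by linarith [hl.1])]
    have e : Q f g l = (C (√(1-l)) * C (√(1-l))) * f ^ 2 - (C (√l) * C (√l)) * g ^ 2 := by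
      rw [← h1, ← h2]; rfl
    rw [e, C_neg]
    ring
  by_cases h0 : Q f g l = 0
  · have : chg (fun x => (Q f g l).eval x) ε = ∅ := by
      rw [h0]; ext x; simp [chg, sc]
    rw [this]; simp
  · have h0' := h0
    rw [hfac] at h0'
    have hp := left_ne_zero_of_mul h0'
    have hq := right_ne_zero_of_mul h0'
    refine (h _ ε hε).trans ?_
    have key : npos (Q f g l) ≤ 2 * (f.support.card + g.support.card) := by
      rw [hfac]
      have e1 := npos_mul_le _ _ hp hq
      have e2 := npos_lt _ hp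
      have e3 := npos_lt _ hq
      have e4 := supp_le f g (√(1-l)) (-√l)
      have e5 := supp_le f g (√(1-l)) (√l)
      omega
    have key' : (npos (Q f g l) : ℝ≥0∞) ≤ 2 * ((f.support.card + g.support.card : ℕ) : ℝ≥0∞) := by
      exact_mod_cast key
    gcongr

lemma lt_iff (u v l : ℝ) (hu : 0 < u) (hv : 0 < v) :
    rho u v < l ↔ (1 - l) * u - l * v < 0 := by
  unfold rho
  rw [div_lt_iff₀ (by linarith)]
  constructor <;> intro h <;> nlinarith

lemma rho_mem (u v : ℝ) (hu : 0 < u) (hv : 0 < v) : 0 < rho u v ∧ rho u v < 1 := by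
  unfold rho
  refine ⟨by positivity, ?_⟩
  rw [div_lt_one (by linarith)]
  linarith

lemma pt (a b : ℝ) (ha : 0 < a) (ha1 : a < 1) (hb : 0 < b) (hb1 : b < 1) :
    ENNReal.ofReal |a - b| ≤ volume ({l : ℝ | ¬ (a < l ↔ b < l)} ∩ Set.Ioo (0:ℝ) 1) := by
  rcases le_total a b with hab | hab
  · have hsub : Set.Ioc a b ⊆ {l : ℝ | ¬ (a < l ↔ b < l)} ∩ Set.Ioo (0:ℝ) 1 := by
      rintro l ⟨h1, h2⟩
      refine ⟨fun h => ?_, ⟨by linarith, by linarith⟩⟩
      exact absurd (h.1 h1) (not_lt.2 h2)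
    calc ENNReal.ofReal |a - b| = volume (Set.Ioc a b) := by
          rw [Real.volume_Ioc, abs_sub_comm, abs_of_nonneg (by linarith)]
      _ ≤ _ := measure_mono hsub
  · have hsub : Set.Ioc b a ⊆ {l : ℝ | ¬ (a < l ↔ b < l)} ∩ Set.Ioo (0:ℝ) 1 := by
      rintro l ⟨h1, h2⟩
      refine ⟨fun h => ?_, ⟨by linarith, by linarith⟩⟩
      exact absurd (h.2 h1) (not_lt.2 h2)
    calc ENNReal.ofReal |a - b| = volume (Set.Ioc b a) := by
          rw [Real.volume_Ioc, abs_of_nonneg (by linarith)]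
      _ ≤ _ := measure_mono hsub

lemma ae_ne (p : ℝ[X]) (hp : p ≠ 0) (c : ℝ) :
    ∀ᵐ x ∂(volume : Measure ℝ), p.eval (x + c) ≠ 0 := by
  have h1 : ∀ᵐ x ∂(volume : Measure ℝ), p.eval x ≠ 0 := by
    rw [ae_iff]
    refine Set.Finite.measure_zero ?_ _
    refine (p.roots.toFinset.finite_toSet).subset ?_
    intro x hx
    simp only [ne_eq, not_not, Set.mem_ofPred_eq] at hx
    simp [hx, hp]
  exact (measurePreserving_add_right volume c).quasiMeasurePreserving.ae h1

theorem main (h : Pool.Agent.W873.RT.VNP) : Pool.Agent.W873.RT.LAY := by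
  intro f g ε hε hf hg
  set μ : Measure ℝ := volume.restrict (Set.Ioo (0:ℝ) 1) with hμ
  set ν : Measure ℝ := volume.restrict (Set.Ioi (0:ℝ)) with hν
  set S : Set (ℝ × ℝ) := {p | sc ((Q f g p.1).eval p.2) ((Q f g p.1).eval (p.2 + ε))} with hS
  have hSm : MeasurableSet S := by
    have hG : Measurable (fun p : ℝ × ℝ => (Q f g p.1).eval p.2) := by
      have : (fun p : ℝ × ℝ => (Q f g p.1).eval p.2) =
          fun p => (1 - p.1) * (f.eval p.2) ^ 2 - p.1 * (g.eval p.2) ^ 2 := by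
        funext p; exact Q_eval _ _ _ _
      rw [this]
      apply Continuous.measurable
      have c1 : Continuous (fun p : ℝ × ℝ => f.eval p.2) := f.continuous.comp continuous_snd
      have c2 : Continuous (fun p : ℝ × ℝ => g.eval p.2) := g.continuous.comp continuous_snd
      fun_prop
    have hH : Measurable (fun p : ℝ × ℝ => (Q f g p.1).eval (p.2 + ε)) := by
      have : (fun p : ℝ × ℝ => (Q f g p.1).eval (p.2 + ε)) =
          (fun p : ℝ × ℝ => (Q f g p.1).eval p.2) ∘ (fun p : ℝ × ℝ => (p.1, p.2 + ε)) := rfl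
      rw [this]
      exact hG.comp (by fun_prop)
    have mG : MeasurableSet {p : ℝ × ℝ | (Q f g p.1).eval p.2 < 0} :=
      measurableSet_lt hG measurable_const
    have mH : MeasurableSet {p : ℝ × ℝ | (Q f g p.1).eval (p.2 + ε) < 0} :=
      measurableSet_lt hH measurable_const
    have e : S = symmDiff {p : ℝ × ℝ | (Q f g p.1).eval p.2 < 0}
        {p : ℝ × ℝ | (Q f g p.1).eval (p.2 + ε) < 0} := by
      ext p
      simp only [hS, sc, Set.mem_ofPred_eq, Set.mem_symmDiff]
      tauto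
    rw [e]
    exact mG.symmDiff mH
  have hpt : ∀ᵐ x ∂ν, ENNReal.ofReal
      |rho ((f.eval x) ^ 2) ((g.eval x) ^ 2) -
        rho ((f.eval (x + ε)) ^ 2) ((g.eval (x + ε)) ^ 2)| ≤ μ ((fun l => (l, x)) ⁻¹' S) := by
    have a1 := ae_restrict_of_ae (s := Set.Ioi (0:ℝ)) (ae_ne f hf 0)
    have a2 := ae_restrict_of_ae (s := Set.Ioi (0:ℝ)) (ae_ne g hg 0)
    have a3 := ae_restrict_of_ae (s := Set.Ioi (0:ℝ)) (ae_ne f hf ε)
    have a4 := ae_restrict_of_ae (s := Set.Ioi (0:ℝ)) (ae_ne g hg ε)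
    filter_upwards [a1, a2, a3, a4] with x h1 h2 h3 h4
    rw [add_zero] at h1 h2
    have p1 : 0 < (f.eval x) ^ 2 := by positivity
    have p2 : 0 < (g.eval x) ^ 2 := by positivity
    have p3 : 0 < (f.eval (x + ε)) ^ 2 := by positivity
    have p4 : 0 < (g.eval (x + ε)) ^ 2 := by positivity
    obtain ⟨r1, r2⟩ := rho_mem _ _ p1 p2
    obtain ⟨r3, r4⟩ := rho_mem _ _ p3 p4
    refine (pt _ _ r1 r2 r3 r4).trans ?_
    rw [hμ, Measure.restrict_apply (measurable_prodMk_right hSm)]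
    refine measure_mono ?_
    rintro l ⟨hl1, hl2⟩
    refine ⟨?_, hl2⟩
    simp only [Set.mem_ofPred_eq] at hl1
    rw [lt_iff _ _ _ p1 p2, lt_iff _ _ _ p3 p4] at hl1
    simp only [hS, sc, Set.mem_preimage, Set.mem_ofPred_eq, Q_eval]
    exact hl1
  calc (∫⁻ x in Set.Ioi (0 : ℝ), ENNReal.ofReal
          |rho ((f.eval x) ^ 2) ((g.eval x) ^ 2) -
            rho ((f.eval (x + ε)) ^ 2) ((g.eval (x + ε)) ^ 2)|)
      ≤ ∫⁻ x, μ ((fun l => (l, x)) ⁻¹' S) ∂ν := lintegral_mono_ae hpt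
    _ = (μ.prod ν) S := (Measure.prod_apply_symm hSm).symm
    _ = ∫⁻ l, ν (Prod.mk l ⁻¹' S) ∂μ := Measure.prod_apply hSm
    _ ≤ ∫⁻ _l, ENNReal.ofReal ε * (2 * ((f.support.card + g.support.card : ℕ) : ℝ≥0∞)) ∂μ := by
        refine lintegral_mono_ae ?_
        rw [hμ]
        filter_upwards [ae_restrict_mem measurableSet_Ioo] with l hl
        refine le_trans (le_of_eq ?_) (vol_Q h f g ε l hε hl)
        rw [hν, Measure.restrict_apply (measurable_prodMk_left hSm)]
        congr 1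
        ext x
        simp only [hS, chg, Set.mem_inter_iff, Set.mem_preimage, Set.mem_ofPred_eq, Set.mem_Ioi]
        tauto
    _ = ENNReal.ofReal ε * (2 * ((f.support.card + g.support.card : ℕ) : ℝ≥0∞)) := by
        rw [lintegral_const, hμ, Measure.restrict_apply MeasurableSet.univ]
        simp

end Pool.Agent.W271.RT.LAY
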