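import Pool.Agent.W181.RT.Props

set_option autoImplicit false

/-! S_SPB: the spanning lemma applied to the quotient of the polynomial ring. -/

namespace Pool.Agent.W271.RT

open Polynomial Pool.Agent.W181.RT

section

variable {R : Type} [CommRing R]

theorem coeff_Dp_zero (i : ℕ) : PowerSeries.coeff 0 (Dp R i) = 1 := by
  rw [Dp, map_add, PowerSeries.coeff_one, if_pos rfl, map_sum]
  rw [Finset.sum_eq_zero, add_zero]
  intro c _
  rw [PowerSeries.coeff_C_mul_X_pow, if_neg (by omega)]

theorem coeff_Dp_succ (i : ℕ) (c : Fin i) : PowerSeries.coeff (c.val + 1) (Dp R i)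
    = (-1 : MvPolynomial (Fin i) R) ^ (c.val + 1) * MvPolynomial.X c := by
  rw [Dp, map_add, PowerSeries.coeff_one, if_neg (by omega), zero_add, map_sum,
    Finset.sum_eq_single c]
  · rw [PowerSeries.coeff_C_mul_X_pow, if_pos rfl]
  · intro b _ hb
    rw [PowerSeries.coeff_C_mul_X_pow, if_neg]
    intro h
    apply hb
    exact Fin.ext (by omega)
  · intro h
    exact absurd (Finset.mem_univ c) h

theorem coeff_Dp_big (i n : ℕ) (h : i < n) : PowerSeries.coeff n (Dp R i) = 0 := by
  rw [Dp, map_add, PowerSeries.coeff_one, if_neg (by omega), zero_add, map_sum]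
  apply Finset.sum_eq_zero
  intro c _
  rw [PowerSeries.coeff_C_mul_X_pow, if_neg (by have := c.2; omega)]

theorem Dp_mul_XW (i : ℕ) (W : Polynomial R) : Dp R i * XW i W
    = ((W.map MvPolynomial.C : Polynomial (MvPolynomial (Fin i) R)) :
        PowerSeries (MvPolynomial (Fin i) R)) := by
  rw [XW, mul_left_comm, PowerSeries.mul_invOfUnit, mul_one]
  rw [← PowerSeries.coeff_zero_eq_constantCoeff_apply, coeff_Dp_zero]
  rfl

theorem coeff_XW_zero (i : ℕ) (W : Polynomial R) (hW : W.coeff 0 = 1) :
    PowerSeries.coeff 0 (XW i W) = 1 := by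
  have hc : PowerSeries.constantCoeff (Dp R i) = 1 := by
    rw [← PowerSeries.coeff_zero_eq_constantCoeff_apply, coeff_Dp_zero]
  have h := congrArg PowerSeries.constantCoeff (Dp_mul_XW i W)
  rw [map_mul, hc, one_mul] at h
  rw [PowerSeries.coeff_zero_eq_constantCoeff_apply, h,
    ← PowerSeries.coeff_zero_eq_constantCoeff_apply, Polynomial.coeff_coe,
    Polynomial.coeff_map, hW, map_one]

end

section gen

variable {R : Type} [CommRing R] [Algebra ℚ R]

theorem gen (h1 : S_SP) (q : ℕ → R) (i ℓ k : ℕ) (S T P : Polynomial R)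
    (hTP : T * P = derivative T) (hSP : S * P = -derivative S) (hq : ∀ n, q n = P.coeff n)
    (hS0 : S.coeff 0 = 1) (hT0 : T.coeff 0 = 1)
    (hgen : Algebra.adjoin ℚ (Set.range q) = ⊤) (hik : i ≤ k) (hil : i ≤ ℓ) :
    (Submodule.span ℚ {x : MvPolynomial (Fin i) R | ∃ lam mu : Multiset ℕ,
        Multiset.card lam = i ∧ Multiset.card mu = i ∧
        (∀ t ∈ lam, t ≤ k - i) ∧ (∀ t ∈ mu, t ≤ ℓ - i) ∧
        x = (lam.map (fun l => PowerSeries.coeff l (XW i T))).prod *
          (mu.map (fun l => PowerSeries.coeff l (XW i S))).prod}) ⊔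
      ((KI q i S T ℓ k).restrictScalars ℚ) = ⊤ := by
  set K : Ideal (MvPolynomial (Fin i) R) := KI q i S T ℓ k with hK
  set π : MvPolynomial (Fin i) R →+* MvPolynomial (Fin i) R ⧸ K := Ideal.Quotient.mk K with hπ
  set φ : R →+* MvPolynomial (Fin i) R ⧸ K := π.comp MvPolynomial.C with hφ
  have hπK : ∀ g ∈ K, π g = 0 := fun g hg => Ideal.Quotient.eq_zero_iff_mem.2 hg
  have hmemrho : ∀ a, rho q i a ∈ K := fun a =>
    Ideal.subset_span (Or.inl (Or.inl ⟨a, rfl⟩))
  have hmemT : ∀ l, k < l + i → PowerSeries.coeff l (XW i T) ∈ K := fun l hl =>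
    Ideal.subset_span (Or.inl (Or.inr ⟨l, hl, rfl⟩))
  have hmemS : ∀ l, ℓ < l + i → PowerSeries.coeff l (XW i S) ∈ K := fun l hl =>
    Ideal.subset_span (Or.inr ⟨l, hl, rfl⟩)
  set D : PowerSeries (MvPolynomial (Fin i) R ⧸ K) := PowerSeries.map π (Dp R i) with hD
  set X' : PowerSeries (MvPolynomial (Fin i) R ⧸ K) := PowerSeries.map π (XW i T) with hX'
  set Y' : PowerSeries (MvPolynomial (Fin i) R ⧸ K) := PowerSeries.map π (XW i S) with hY'
  set Pb : PowerSeries (MvPolynomial (Fin i) R ⧸ K) :=
    ((P.map φ : Polynomial (MvPolynomial (Fin i) R ⧸ K)) :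
      PowerSeries (MvPolynomial (Fin i) R ⧸ K)) with hPb
  have hmapcoe : ∀ W : Polynomial R, PowerSeries.map π
      ((W.map MvPolynomial.C : Polynomial (MvPolynomial (Fin i) R)) :
        PowerSeries (MvPolynomial (Fin i) R))
      = ((W.map φ : Polynomial (MvPolynomial (Fin i) R ⧸ K)) :
        PowerSeries (MvPolynomial (Fin i) R ⧸ K)) := by
    intro W
    ext n
    rw [PowerSeries.coeff_map, Polynomial.coeff_coe, Polynomial.coeff_coe, Polynomial.coeff_map,
      Polynomial.coeff_map]
    rfl
  have hDX : D * X' = ((T.map φ : Polynomial (MvPolynomial (Fin i) R ⧸ K)) :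
        PowerSeries (MvPolynomial (Fin i) R ⧸ K)) := by
    rw [hD, hX', ← map_mul, Dp_mul_XW, hmapcoe]
  have hDY : D * Y' = ((S.map φ : Polynomial (MvPolynomial (Fin i) R ⧸ K)) :
        PowerSeries (MvPolynomial (Fin i) R ⧸ K)) := by
    rw [hD, hY', ← map_mul, Dp_mul_XW, hmapcoe]
  have hPb' : Pb = PowerSeries.map π (PowerSeries.mk (fun n => MvPolynomial.C (q n))) := by
    ext n
    rw [hPb, Polynomial.coeff_coe, Polynomial.coeff_map, PowerSeries.coeff_map,
      PowerSeries.coeff_mk, hq]
    rfl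
  set M : PowerSeries (MvPolynomial (Fin i) R ⧸ K) :=
    D * Pb - PowerSeries.derivative _ D with hM
  have hdX : D * PowerSeries.derivative _ X' = M * X' := by
    have e1 : PowerSeries.derivative _ (D * X') = D * X' * Pb := by
      rw [hDX, PowerSeries.derivative_coe, Polynomial.derivative_map, ← hTP, Polynomial.map_mul,
        Polynomial.coe_mul]
    rw [Derivation.leibniz, smul_eq_mul, smul_eq_mul] at e1
    rw [hM]
    linear_combination e1
  have hdY : D * PowerSeries.derivative _ Y'
      = -(2 * PowerSeries.derivative _ D + M) * Y' := by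
    have e1 : PowerSeries.derivative _ (D * Y') = -(D * Y' * Pb) := by
      have e2 : derivative S = -(S * P) := by rw [hSP, neg_neg]
      rw [hDY, PowerSeries.derivative_coe, Polynomial.derivative_map, e2, Polynomial.map_neg,
        Polynomial.map_mul]
      simp only [Polynomial.coe_neg, Polynomial.coe_mul]
      rfl
    rw [Derivation.leibniz, smul_eq_mul, smul_eq_mul] at e1
    rw [hM]
    linear_combination e1
  have hD0 : PowerSeries.coeff 0 D = 1 := by
    rw [hD, PowerSeries.coeff_map, coeff_Dp_zero, map_one]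
  have hDbig : ∀ c : ℕ, i < c → PowerSeries.coeff c D = 0 := by
    intro c hc
    rw [hD, PowerSeries.coeff_map, coeff_Dp_big i c hc, map_zero]
  have hMbig : ∀ c : ℕ, i ≤ c → PowerSeries.coeff c M = 0 := by
    intro c hc
    have e1 : PowerSeries.coeff c (D * Pb) = 0 := by
      rw [hPb', hD, ← map_mul, PowerSeries.coeff_map]
      have e2 := hπK _ (hmemrho (c - i))
      rw [rho, Nat.add_sub_cancel' hc] at e2
      exact e2
    rw [hM, map_sub, e1, PowerSeries.coeff_derivative, hDbig (c + 1) (by omega), zero_mul,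
      sub_zero]
  -- generation
  have hadj : Algebra.adjoin ℚ (Set.range (fun c : ℕ => PowerSeries.coeff c D) ∪
    Set.range (fun c : ℕ => PowerSeries.coeff c M)) = ⊤ := by
    rw [eq_top_iff]
    set A0 := Algebra.adjoin ℚ (Set.range (fun c : ℕ => PowerSeries.coeff c D) ∪
      Set.range (fun c : ℕ => PowerSeries.coeff c M)) with hA0
    have hDA : ∀ c, PowerSeries.coeff c D ∈ A0 := fun c =>
      Algebra.subset_adjoin (Or.inl ⟨c, rfl⟩)
    have hMA : ∀ c, PowerSeries.coeff c M ∈ A0 := fun c =>
      Algebra.subset_adjoin (Or.inr ⟨c, rfl⟩)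
    have hNA : ∀ c, PowerSeries.coeff c (D * Pb) ∈ A0 := by
      intro c
      have e1 : PowerSeries.coeff c (D * Pb) = PowerSeries.coeff c M
          + PowerSeries.coeff (c + 1) D * ((c : MvPolynomial (Fin i) R ⧸ K) + 1) := by
        rw [hM, map_sub, PowerSeries.coeff_derivative]
        ring
      rw [e1]
      exact A0.add_mem (hMA c) (A0.mul_mem (hDA _) (A0.add_mem (natCast_mem A0 c) A0.one_mem))
    have hqA : ∀ n, φ (q n) ∈ A0 := by
      intro n
      induction n using Nat.strong_induction_on with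
      | _ n ih =>
        have e1 := PowerSeries.coeff_mul n D Pb
        have hmem : ((0, n) : ℕ × ℕ) ∈ Finset.HasAntidiagonal.antidiagonal n := by
          rw [Finset.HasAntidiagonal.mem_antidiagonal, zero_add]
        rw [← Finset.add_sum_erase _ _ hmem] at e1
        simp only at e1
        rw [hD0, one_mul] at e1
        have e2 : PowerSeries.coeff n Pb = φ (q n) := by
          rw [hPb, Polynomial.coeff_coe, Polynomial.coeff_map, hq]
        have e3 : φ (q n) = PowerSeries.coeff n (D * Pb)
            - ∑ p ∈ (Finset.HasAntidiagonal.antidiagonal n).erase (0, n),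
              PowerSeries.coeff p.1 D * PowerSeries.coeff p.2 Pb := by
          rw [e1, e2]
          ring
        rw [e3]
        refine A0.sub_mem (hNA n) (A0.sum_mem fun p hp => A0.mul_mem (hDA _) ?_)
        rw [Finset.mem_erase, Finset.HasAntidiagonal.mem_antidiagonal] at hp
        have hlt : p.2 < n := by
          rcases Nat.lt_or_ge p.2 n with h | h
          · exact h
          · exfalso
            apply hp.1
            ext
            · simp only; omega
            · simp only; omega
        have e4 : PowerSeries.coeff p.2 Pb = φ (q p.2) := by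
          rw [hPb, Polynomial.coeff_coe, Polynomial.coeff_map, hq]
        rw [e4]
        exact ih p.2 hlt
    have hRA : ∀ x : R, φ x ∈ A0 := by
      intro x
      have hx : x ∈ Algebra.adjoin ℚ (Set.range q) := by rw [hgen]; exact Algebra.mem_top
      induction hx using Algebra.adjoin_induction with
      | mem x hx =>
        obtain ⟨n, rfl⟩ := hx
        exact hqA n
      | algebraMap r =>
        have : φ (algebraMap ℚ R r) = algebraMap ℚ (MvPolynomial (Fin i) R ⧸ K) r :=
          (congrFun (congrArg DFunLike.coe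
            (RingHom.ext_rat (φ.comp (algebraMap ℚ R)) (algebraMap ℚ _))) r)
        rw [this]
        exact A0.algebraMap_mem r
      | add x y _ _ hx hy =>
        rw [map_add]
        exact A0.add_mem hx hy
      | mul x y _ _ hx hy =>
        rw [map_mul]
        exact A0.mul_mem hx hy
    have hall : ∀ p : MvPolynomial (Fin i) R, π p ∈ A0 := by
      intro p
      induction p using MvPolynomial.induction_on with
      | C a => exact hRA a
      | add p p' hp hp' =>
        rw [map_add]
        exact A0.add_mem hp hp'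
      | mul_X p c hp =>
        rw [map_mul]
        refine A0.mul_mem hp ?_
        have hs : π ((-1 : MvPolynomial (Fin i) R) ^ (c.val + 1))
            * π ((-1 : MvPolynomial (Fin i) R) ^ (c.val + 1)) = 1 := by
          rw [← map_mul, ← mul_pow, neg_mul_neg, one_mul, one_pow, map_one]
        have e1 : π (MvPolynomial.X c) = π ((-1 : MvPolynomial (Fin i) R) ^ (c.val + 1))
            * PowerSeries.coeff (c.val + 1) D := by
          rw [hD, PowerSeries.coeff_map, coeff_Dp_succ, map_mul, ← mul_assoc, hs, one_mul]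
        rw [e1]
        refine A0.mul_mem ?_ (hDA _)
        rcases neg_one_pow_eq_or (MvPolynomial (Fin i) R) (c.val + 1) with h | h
        · rw [h, map_one]
          exact A0.one_mem
        · rw [h, map_neg, map_one]
          exact A0.neg_mem A0.one_mem
    intro x _
    obtain ⟨p, rfl⟩ := Ideal.Quotient.mk_surjective x
    exact hall p
  have key := h1 i (MvPolynomial (Fin i) R ⧸ K) D M X' Y' hD0
    (by rw [hX', PowerSeries.coeff_map, coeff_XW_zero i T hT0, map_one])
    (by rw [hY', PowerSeries.coeff_map, coeff_XW_zero i S hS0, map_one])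
    hDbig hMbig hdX hdY hadj (k - i + 1) (ℓ - i + 1)
  have hid : Ideal.span ({x : MvPolynomial (Fin i) R ⧸ K | ∃ l : ℕ, k - i + 1 ≤ l ∧
      x = PowerSeries.coeff l X'} ∪
        {x : MvPolynomial (Fin i) R ⧸ K | ∃ l : ℕ, ℓ - i + 1 ≤ l ∧
          x = PowerSeries.coeff l Y'}) = ⊥ := by
    rw [Ideal.span_eq_bot]
    rintro x (⟨l, hl, rfl⟩ | ⟨l, hl, rfl⟩)
    · rw [hX', PowerSeries.coeff_map]
      exact hπK _ (hmemT l (by omega))
    · rw [hY', PowerSeries.coeff_map]
      exact hπK _ (hmemS l (by omega))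
  rw [hid] at key
  have hbot : Submodule.restrictScalars ℚ (⊥ : Ideal (MvPolynomial (Fin i) R ⧸ K)) = ⊥ :=
    Submodule.restrictScalars_bot ..
  rw [hbot, sup_bot_eq] at key
  -- pull back
  rw [eq_top_iff]
  intro x _
  set πl : MvPolynomial (Fin i) R →ₗ[ℚ] MvPolynomial (Fin i) R ⧸ K :=
    (Ideal.Quotient.mkₐ ℚ K).toLinearMap with hπl
  have hπl' : ∀ y, πl y = π y := fun y => rfl
  have hx : πl x ∈ (⊤ : Submodule ℚ (MvPolynomial (Fin i) R ⧸ K)) := Submodule.mem_top
  rw [← key] at hx
  have hsub : Submodule.span ℚ {x : MvPolynomial (Fin i) R ⧸ K | ∃ lam mu : Multiset ℕ,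
        Multiset.card lam = i ∧ Multiset.card mu = i ∧
        (∀ t ∈ lam, t < k - i + 1) ∧ (∀ t ∈ mu, t < ℓ - i + 1) ∧
        x = (lam.map (fun l => PowerSeries.coeff l X')).prod *
          (mu.map (fun l => PowerSeries.coeff l Y')).prod}
      ≤ Submodule.map πl (Submodule.span ℚ {x : MvPolynomial (Fin i) R | ∃ lam mu : Multiset ℕ,
        Multiset.card lam = i ∧ Multiset.card mu = i ∧
        (∀ t ∈ lam, t ≤ k - i) ∧ (∀ t ∈ mu, t ≤ ℓ - i) ∧
        x = (lam.map (fun l => PowerSeries.coeff l (XW i T))).prod *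
          (mu.map (fun l => PowerSeries.coeff l (XW i S))).prod}) := by
    rw [Submodule.map_span]
    refine Submodule.span_mono ?_
    rintro y ⟨lam, mu, hl, hm, hl2, hm2, rfl⟩
    refine ⟨_, ⟨lam, mu, hl, hm, fun t ht => Nat.lt_succ_iff.1 (hl2 t ht),
      fun t ht => Nat.lt_succ_iff.1 (hm2 t ht), rfl⟩, ?_⟩
    rw [hπl', map_mul, map_multiset_prod, map_multiset_prod, Multiset.map_map, Multiset.map_map]
    congr 1
  obtain ⟨y, hy, hyx⟩ := hsub hx
  rw [Submodule.mem_sup]
  refine ⟨y, hy, x - y, ?_, by abel⟩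
  rw [Submodule.restrictScalars_mem, ← Ideal.Quotient.eq_zero_iff_mem]
  have : π (x - y) = π x - π y := map_sub π x y
  rw [hπ] at this
  rw [this]
  rw [hπl', hπl'] at hyx
  rw [hπ] at hyx
  rw [hyx, sub_self]

end gen

theorem t_SPB (h1 : S_SP) (h2 : S_GEN) : S_SPB := by
  intro ℓ k i hik hil
  exact gen h1 (qq ℓ k) i ℓ k (SS ℓ k) (TT ℓ k) (PP ℓ k) (TP ℓ k) (SP ℓ k) (fun n => rfl)
    (SS_coeff_zero ℓ k) (TT_coeff_zero ℓ k) (h2 ℓ k) hik hil

end Pool.Agent.W271.RT
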